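import Pool.Agent.Helper55.PC.Final

/-!
# MP_cf7fa9_pr, Q1: the product condition does not imply pre-cutoff for vertex-transitive graphs

There is a sequence of finite connected vertex-transitive graphs (indeed Cayley graphs), all of
degree 7, whose lazy simple random walks satisfy the product condition but do not exhibit
pre-cutoff.

The definitions used in the statement (`FinGraph`, `VertexTransitive`, `deg`, `lazyP`, `statDist`,
`tvDist`, `tvAt`, `tmix`, `lambda2`, `trel`, `ProductCondition`, `PreCutoff`) are in
`Pool.Agent.Helper55.PC.GraphDefs`.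
-/

namespace Pool.Agent.Results.MP_cf7fa9_pr.NoPreCutoff

open Pool.Agent.Helper55.PC

/-- There are finite connected vertex-transitive graphs of degree 7 whose lazy simple random walks
satisfy the product condition (`t_rel = o(t_mix)`) but do not exhibit pre-cutoff. -/
theorem result : ∃ 𝒢 : ℕ → FinGraph,
    (∀ n, (𝒢 n).G.Connected) ∧
    (∀ n, VertexTransitive (𝒢 n).G) ∧
    (∀ n x, deg (𝒢 n).G x = 7) ∧
    ProductCondition 𝒢 ∧ ¬ PreCutoff 𝒢 :=
  no_precutoff

end Pool.Agent.Results.MP_cf7fa9_pr.NoPreCutoff
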